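import Pool.Agent.Y333.RP.Gap
import Pool.Agent.Results.MP_9740d9_al.AsymptoticRegularity

/-!
# The asymptotic constant of the powers of an edge ideal, and its dependence on the field

Definitions used (files `Pool.Agent.H677R3.RegKoszul`, `RegDeg` and `AbSusp`):
* `edgeIdeal k G` is the ideal of `k[x_0,…,x_{n-1}]` spanned by the `x_i x_j`, `i` adjacent to `j`;
* `TorNe J i e`: the Koszul homology `H_i(x_1,…,x_n; J) = Tor_i(J, k)` is nonzero in internal
  degree `i + e`;
* `IsReg J r`: `r` is the greatest `e` such that `TorNe J i e` for some `i`, i.e. `reg J = r`;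
* `away G x y`: the graph which has only the edges `uv` of `G` with `u`, `v` different from `x`, `y`
  and not adjacent to them.
-/

universe u

namespace Pool.Agent.Results.MP_9740d9_al.AsymptoticConstant

open Pool.Agent.H677R3.EdgeReg Pool.Agent.H677R3.Ab Pool.Agent.Y333.RP

/-- (1) Let `G` be a graph with an edge, `k` a field, `r = reg I(G)` and `σ` the greatest among `1`
and the regularities of the edge ideals of the graphs `away G x y`, `xy` an edge, over `k`. Then
`reg I(G)^q = 2 q + σ - 1` holds exactly for the `q ≥ r - σ`: the asymptotic constant is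
`b_k = σ - 1`. (2) For two fields `k`, `k'` the asymptotic constants are equal if and only if the two
numbers `σ` are. (3) There is a graph with 23 vertices with `reg I(G) = 5` over all fields and
`b_k = 3` if the characteristic is `2`, and `b_k = 2` otherwise. -/
theorem result :
    (∀ (k : Type u) [Field k] (n : ℕ) (G : SimpleGraph (Fin n)), (∃ u v, G.Adj u v) →
      ∃ r σ : ℕ, IsReg (edgeIdeal k G) r ∧
        IsGreatest ({1} ∪ {s | ∃ x y, G.Adj x y ∧ IsReg (edgeIdeal k (away G x y)) s}) σ ∧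
        σ + 1 ≤ r ∧
        ∀ q : ℕ, 1 ≤ q → (IsReg ((edgeIdeal k G) ^ q) (2 * q + (σ - 1)) ↔ r - σ ≤ q)) ∧
    (∀ (k k' : Type u) [Field k] [Field k'] (n : ℕ) (G : SimpleGraph (Fin n)),
      (∃ u v, G.Adj u v) → ∀ σ σ' : ℕ,
      IsGreatest ({1} ∪ {s | ∃ x y, G.Adj x y ∧ IsReg (edgeIdeal k (away G x y)) s}) σ →
      IsGreatest ({1} ∪ {s | ∃ x y, G.Adj x y ∧ IsReg (edgeIdeal k' (away G x y)) s}) σ' →
      ((∃ q₀ : ℕ, ∀ q : ℕ, q₀ ≤ q → ∃ s : ℕ, IsReg ((edgeIdeal k G) ^ q) s ∧
        IsReg ((edgeIdeal k' G) ^ q) s) ↔ σ = σ')) ∧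
    ∃ G : SimpleGraph (Fin 23),
      (∀ (k : Type u) [Field k], IsReg (edgeIdeal k G) 5) ∧
      (∀ (k : Type u) [Field k], ringChar k = 2 → ∀ q : ℕ, 1 ≤ q →
        IsReg ((edgeIdeal k G) ^ q) (2 * q + 3)) ∧
      (∀ (k : Type u) [Field k], ringChar k ≠ 2 → ∀ q : ℕ, 2 ≤ q →
        IsReg ((edgeIdeal k G) ^ q) (2 * q + 2)) := by
  refine ⟨fun k _ n G hG => ?_, fun k k' _ _ n G hG σ σ' hσ hσ' => ?_,
    AsymptoticRegularity.result⟩
  · obtain ⟨r, σ, h1, h2, h3, h4⟩ := formula' k G hG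
    have hσ : 1 ≤ σ := h2.2 (Or.inl rfl)
    refine ⟨r, σ, h1, h2, h3, fun q hq => ⟨fun h => ?_, fun h => ?_⟩⟩
    · have := h.unique (h4 q hq)
      omega
    · have h5 := h4 q hq
      have h6 : max (r + q - 1) (2 * q - 1 + σ) = 2 * q + (σ - 1) := by omega
      rwa [h6] at h5
  · obtain ⟨r, τ, h1, h2, h3, h4⟩ := formula' k G hG
    obtain ⟨r', τ', g1, g2, g3, g4⟩ := formula' k' G hG
    have e1 : τ = σ := h2.unique hσ
    have e2 : τ' = σ' := g2.unique hσ'
    subst e1 e2
    have hτ : 1 ≤ τ := h2.2 (Or.inl rfl)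
    have hτ' : 1 ≤ τ' := g2.2 (Or.inl rfl)
    constructor
    · rintro ⟨q₀, h⟩
      obtain ⟨s, hs, hs'⟩ := h (q₀ + r + r') (by omega)
      have f1 := hs.unique (h4 _ (by omega))
      have f2 := hs'.unique (g4 _ (by omega))
      omega
    · intro h
      refine ⟨r + r' + 1, fun q hq => ⟨2 * q - 1 + τ, ?_, ?_⟩⟩
      · have h5 := h4 q (by omega)
        have h6 : max (r + q - 1) (2 * q - 1 + τ) = 2 * q - 1 + τ := by omega
        rwa [h6] at h5
      · have h5 := g4 q (by omega)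
        have h6 : max (r' + q - 1) (2 * q - 1 + τ') = 2 * q - 1 + τ := by omega
        rwa [h6] at h5

end Pool.Agent.Results.MP_9740d9_al.AsymptoticConstant
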